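import Mathlib

/-! Timelike relatedness is existential-universal definable from lightlike relatedness. -/

namespace Pool.Agent.Results.MP_446ff5_lc.Definable

/-- quantifier-free formulas with equality and one binary relation symbol, variables in `V` -/
inductive QF (V : Type) : Type
  | rel (i j : V) : QF V
  | eq (i j : V) : QF V
  | not (φ : QF V) : QF V
  | and (φ ψ : QF V) : QF V
  | or (φ ψ : QF V) : QF V

/-- truth of a quantifier-free formula -/
def QF.sat {V P : Type} (R : P → P → Prop) (v : V → P) : QF V → Prop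
  | .rel i j => R (v i) (v j)
  | .eq i j => v i = v j
  | .not φ => ¬ φ.sat R v
  | .and φ ψ => φ.sat R v ∧ ψ.sat R v
  | .or φ ψ => φ.sat R v ∨ ψ.sat R v

section
variable {F : Type} [Field F] [LinearOrder F] [IsStrictOrderedRing F] {d : ℕ}

/-- the Minkowski interval in dimension `d + 1`; coordinate `0` is time -/
def mu (x y : Fin (d + 1) → F) : F :=
  (x 0 - y 0) ^ 2 - ∑ i : Fin d, (x i.succ - y i.succ) ^ 2

/-- timelike relatedness -/
def Timelike (x y : Fin (d + 1) → F) : Prop := 0 < mu x y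

/-- lightlike relatedness -/
def Lightlike (x y : Fin (d + 1) → F) : Prop := mu x y = 0 ∧ x ≠ y

/-- every nonnegative element has a square root -/
def Euclidean (F : Type) [Field F] [LinearOrder F] : Prop := ∀ a : F, 0 ≤ a → ∃ b, b ^ 2 = a

def S (p q : Fin (d + 1) → F) : F := ∑ i : Fin d, p i.succ * q i.succ

def B (p q : Fin (d + 1) → F) : F := p 0 * q 0 - S p q

omit [LinearOrder F] [IsStrictOrderedRing F] in
theorem mu_B (x y : Fin (d + 1) → F) : mu x y = B (x - y) (x - y) := by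
  simp only [mu, B, S, Pi.sub_apply, sq]

omit [LinearOrder F] [IsStrictOrderedRing F] in
theorem mu_symm (x y : Fin (d + 1) → F) : mu x y = mu y x := by
  simp only [mu]
  rw [sub_sq_comm]
  congr 1
  exact Finset.sum_congr rfl fun i _ => sub_sq_comm _ _

omit [LinearOrder F] [IsStrictOrderedRing F] in
theorem S_comb (a b : F) (p q : Fin (d + 1) → F) :
    S (a • p + b • q) (a • p + b • q) = a ^ 2 * S p p + 2 * a * b * S p q + b ^ 2 * S q q := by
  simp only [S, Finset.mul_sum, ← Finset.sum_add_distrib, Pi.add_apply, Pi.smul_apply, smul_eq_mul]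
  exact Finset.sum_congr rfl fun i _ => by ring

omit [LinearOrder F] [IsStrictOrderedRing F] in
theorem S_lin (a b : F) (v p q : Fin (d + 1) → F) :
    S v (a • p + b • q) = a * S v p + b * S v q := by
  simp only [S, Finset.mul_sum, ← Finset.sum_add_distrib, Pi.add_apply, Pi.smul_apply, smul_eq_mul]
  exact Finset.sum_congr rfl fun i _ => by ring

omit [LinearOrder F] [IsStrictOrderedRing F] in
theorem mu_line (y x l : Fin (d + 1) → F) (t : F) (hl : B l l = 0) :
    mu y (x + t • l) = mu y x - 2 * t * B (y - x) l := by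
  have e : y - (x + t • l) = (1 : F) • (y - x) + (-t) • l := by module
  rw [mu_B, mu_B, e]
  simp only [B] at hl ⊢
  rw [S_comb]
  simp only [Pi.add_apply, Pi.smul_apply, smul_eq_mul]
  linear_combination t ^ 2 * hl

theorem S_nonneg (p : Fin (d + 1) → F) : 0 ≤ S p p :=
  Finset.sum_nonneg fun _ _ => mul_self_nonneg _

theorem S_zero {p : Fin (d + 1) → F} (h : S p p = 0) (i : Fin d) : p i.succ = 0 :=
  mul_self_eq_zero.1 ((Finset.sum_eq_zero_iff_of_nonneg fun _ _ => mul_self_nonneg _).1 h i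
    (Finset.mem_univ i))

theorem null_time {l : Fin (d + 1) → F} (hl : B l l = 0) (h0 : l ≠ 0) : l 0 ≠ 0 := by
  intro e
  apply h0
  have : S l l = 0 := by simp only [B, e] at hl; linarith
  funext i
  exact Fin.cases e (S_zero this) i

theorem null_par {l m : Fin (d + 1) → F} (hl : B l l = 0) (h0 : l ≠ 0) (hm : B m m = 0)
    (h : B m l = 0) : ∃ c : F, m = c • l := by
  have l0 := null_time hl h0
  have : S (l 0 • m + (-m 0) • l) (l 0 • m + (-m 0) • l) = 0 := by
    rw [S_comb]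
    simp only [B] at hl hm h
    linear_combination (-(l 0) ^ 2) * hm + 2 * l 0 * m 0 * h - (m 0) ^ 2 * hl
  refine ⟨m 0 / l 0, funext fun i => Fin.cases ?_ (fun i => ?_) i⟩
  · simp [l0]
  · have := S_zero this i
    simp only [Pi.add_apply, Pi.smul_apply, smul_eq_mul] at this ⊢
    field_simp
    linear_combination this

theorem time_null {v l : Fin (d + 1) → F} (hv : 0 < B v v) (hl : B l l = 0) (h0 : l ≠ 0) :
    B v l ≠ 0 := by
  intro h
  have l0 := null_time hl h0
  have := S_nonneg (l 0 • v + (-v 0) • l)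
  rw [S_comb] at this
  simp only [B] at hl hv h
  have e : l 0 ^ 2 * S v v + 2 * l 0 * -v 0 * S v l + (-v 0) ^ 2 * S l l
      = -(l 0 ^ 2 * (v 0 * v 0 - S v v)) := by
    linear_combination 2 * l 0 * v 0 * h - (v 0) ^ 2 * hl
  have : 0 < l 0 ^ 2 * (v 0 * v 0 - S v v) := by positivity
  linarith

omit [LinearOrder F] [IsStrictOrderedRing F] in
theorem S_single (v : Fin (d + 1) → F) (i : Fin d) : S v (Pi.single i.succ 1) = v i.succ := by
  simp [S, Pi.single_apply]

theorem exists_perp (hd : 2 ≤ d) (v : Fin (d + 1) → F) :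
    ∃ w : Fin (d + 1) → F, w 0 = 0 ∧ S v w = 0 ∧ 0 < S w w := by
  let i : Fin d := ⟨0, by omega⟩
  let j : Fin d := ⟨1, by omega⟩
  have hij : j.succ ≠ i.succ := by simp [i, j]
  by_cases h : v i.succ = 0
  · refine ⟨Pi.single i.succ 1, by simp, by rw [S_single, h], ?_⟩
    rw [S_single]; simp
  · refine ⟨v i.succ • Pi.single j.succ 1 + (-v j.succ) • Pi.single i.succ 1, by simp, ?_, ?_⟩
    · rw [S_lin, S_single, S_single]; ring
    · rw [S_comb, S_single, S_single, S_single]
      simp only [Pi.single_eq_same, Pi.single_eq_of_ne hij.symm]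
      nlinarith [sq_pos_of_ne_zero h, sq_nonneg (v j.succ)]

theorem space_null (hE : Euclidean F) (hd : 2 ≤ d) {v : Fin (d + 1) → F} (hv : B v v < 0) :
    ∃ l : Fin (d + 1) → F, l ≠ 0 ∧ B l l = 0 ∧ B v l = 0 := by
  obtain ⟨w, _, w1, w2⟩ := exists_perp hd v
  simp only [B] at hv
  have hs : 0 < S v v := by nlinarith [mul_self_nonneg (v 0)]
  obtain ⟨c, hc⟩ := hE (S v v * (S v v - v 0 * v 0) / S w w)
    (div_nonneg (mul_nonneg hs.le (by linarith)) w2.le)
  rw [eq_div_iff w2.ne'] at hc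
  let l : Fin (d + 1) → F := Fin.cases (S v v) fun i => (v 0 • v + c • w) i.succ
  have e1 : S l l = S (v 0 • v + c • w) (v 0 • v + c • w) := rfl
  have e2 : S v l = S v (v 0 • v + c • w) := rfl
  have e0 : l 0 = S v v := rfl
  refine ⟨l, fun h => hs.ne' (e0.symm.trans (congrFun h 0)), ?_, ?_⟩
  · simp only [B]
    rw [e1, e0, S_comb, w1]
    linear_combination -hc
  · simp only [B]
    rw [e2, e0, S_lin, w1]
    ring

theorem mu_self (x : Fin (d + 1) → F) : mu x x = 0 := by simp [mu]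

theorem collinear {x z v : Fin (d + 1) → F} (h : Lightlike x z) (h1 : mu v x = 0)
    (h2 : mu v z = 0) : ∃ c : F, v = x + c • (z - x) := by
  have hl : B (z - x) (z - x) = 0 := by rw [← mu_B, mu_symm, h.1]
  have := mu_line v x (z - x) 1 hl
  rw [show x + (1 : F) • (z - x) = z by module, h1, h2] at this
  obtain ⟨c, hc⟩ := null_par hl (sub_ne_zero.2 h.2.symm) (m := v - x) (by rw [← mu_B, h1])
    (by linarith)
  exact ⟨c, by rw [← hc]; module⟩

/-- the light line through `p` and `a` misses the light cone of `q` at `v` -/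
def Sig (p q a v : Fin (d + 1) → F) : Prop :=
  Lightlike p a ∧ (¬ (v = p ∨ v = a ∨ (Lightlike v p ∧ Lightlike v a)) ∨
    ¬ (Lightlike v q ∨ v = q))

theorem sig_neg {p q a : Fin (d + 1) → F} (h : ∀ v, Sig p q a v) : mu p q < 0 := by
  have h0 := (h p).1
  have hl : B (a - p) (a - p) = 0 := by rw [← mu_B, mu_symm, h0.1]
  have key : ∀ t : F, mu q (p + t • (a - p)) ≠ 0 := by
    intro t e
    set v := p + t • (a - p) with hv
    have m1 : mu p v = 0 := by
      rw [hv, mu_line _ _ _ _ hl, mu_self]; simp [B, S]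
    have m2 : mu a v = 0 := by
      rw [hv, mu_line _ _ _ _ hl, hl, mu_symm, h0.1]; simp
    rcases (h v).2 with k | k
    · apply k
      by_cases e1 : v = p
      · exact Or.inl e1
      by_cases e2 : v = a
      · exact Or.inr (Or.inl e2)
      exact Or.inr (Or.inr ⟨⟨by rw [mu_symm, m1], e1⟩, by rw [mu_symm, m2], e2⟩)
    · apply k
      by_cases e1 : v = q
      · exact Or.inr e1
      · exact Or.inl ⟨by rw [mu_symm, e], e1⟩
  rw [mu_symm]
  rcases lt_trichotomy (mu q p) 0 with k | k | k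
  · exact k
  · exact absurd (by simpa using k) (key 0)
  · have b := time_null (mu_B q p ▸ k) hl (sub_ne_zero.2 h0.2.symm)
    refine absurd ?_ (key (mu q p / (2 * B (q - p) (a - p))))
    rw [mu_line _ _ _ _ hl]
    field_simp
    ring

theorem sig_of_neg (hE : Euclidean F) (hd : 2 ≤ d) {p q : Fin (d + 1) → F} (h : mu p q < 0) :
    ∃ a, ∀ v, Sig p q a v := by
  rw [mu_symm] at h
  obtain ⟨l, l0, l1, l2⟩ := space_null hE hd (mu_B q p ▸ h)
  have hpa : Lightlike p (p + (1 : F) • l) :=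
    ⟨by rw [mu_line _ _ _ _ l1, mu_self]; simp [B, S], by simpa using l0⟩
  refine ⟨_, fun v => ⟨hpa, or_iff_not_imp_left.2 fun k k' => ?_⟩⟩
  have : ∃ c : F, v = p + c • l := by
    rcases not_not.1 k with rfl | rfl | ⟨k1, k2⟩
    · exact ⟨0, by simp⟩
    · exact ⟨1, rfl⟩
    · simpa using collinear hpa k1.1 k2.1
  obtain ⟨c, rfl⟩ := this
  have e := mu_line q p l c l1
  rw [l2, mu_symm] at e
  rcases k' with k' | k'
  · rw [k'.1] at e; linarith
  · rw [k', mu_self] at e; linarith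

/-- the configuration witnessing timelike relatedness -/
def Conf (x y z x' u w : Fin (d + 1) → F) : Prop :=
  Lightlike x z ∧ Lightlike x' x ∧ Lightlike x' z ∧ Lightlike y z ∧ Lightlike u x ∧
    Lightlike w x' ∧ mu y x' < 0 ∧ mu u z < 0 ∧ mu u x' < 0 ∧ mu w x < 0 ∧ mu w z < 0

theorem conf_time {x y z x' u w : Fin (d + 1) → F} (h : Conf x y z x' u w) : 0 < mu x y := by
  obtain ⟨h1, h2, h3, h4, h5, h6, s1, s2, s3, s4, s5⟩ := h
  have hl : B (z - x) (z - x) = 0 := by rw [← mu_B, mu_symm, h1.1]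
  obtain ⟨c, rfl⟩ := collinear h1 h2.1 h3.1
  have ez : ∀ p, mu p z = mu p x - 2 * B (p - x) (z - x) := fun p => by
    have := mu_line p x (z - x) 1 hl
    rw [show x + (1 : F) • (z - x) = z by module] at this
    rw [this]; ring
  have a4 := h4.1
  have a5 := h5.1
  have a6 := h6.1
  rw [mu_line _ _ _ _ hl] at s1 s3 a6
  rw [ez] at s2 s5 a4
  rw [mu_symm]
  generalize B (u - x) (z - x) = β at *
  generalize B (w - x) (z - x) = γ at *
  generalize B (y - x) (z - x) = δ at *
  have c0 : 0 < c := by nlinarith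
  have g0 : γ < 0 := by nlinarith
  have c1 : 1 < c := by nlinarith
  nlinarith

theorem time_conf (hd : 2 ≤ d) {x y : Fin (d + 1) → F} (h : 0 < mu x y) :
    ∃ z x' u w, Conf x y z x' u w := by
  let i : Fin d := ⟨0, by omega⟩
  let l : Fin (d + 1) → F := (1 : F) • Pi.single 0 1 + (1 : F) • Pi.single i.succ 1
  let m : Fin (d + 1) → F := (1 : F) • Pi.single 0 1 + (-1 : F) • Pi.single i.succ 1
  have s0 : ∀ v : Fin (d + 1) → F, S v (Pi.single 0 1) = 0 := fun v => by simp [S]
  have hl : B l l = 0 := by simp only [B]; rw [S_lin, s0, S_single]; simp [l]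
  have hm : B m m = 0 := by simp only [B]; rw [S_lin, s0, S_single]; simp [m]
  have hml : B m l = 2 := by
    simp only [B]; rw [S_lin, s0, S_single]; simp [l, m]; norm_num
  have l0 : l ≠ 0 := fun e => by simpa [l] using congrFun e 0
  have m0 : m ≠ 0 := fun e => by simpa [m] using congrFun e 0
  rw [mu_symm] at h
  have b := time_null (mu_B y x ▸ h) hl l0
  set t := mu y x / (2 * B (y - x) l) with ht
  have e : 2 * t * B (y - x) l = mu y x := by rw [ht]; field_simp
  have t0 : t ≠ 0 := fun k => by rw [k] at e; linarith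
  have tt : 0 < t * t := mul_self_pos.2 t0
  have sm : ∀ (s : F) (p q : Fin (d + 1) → F), B (s • p) q = s * B p q := fun s p q => by
    simp only [B, S, Pi.smul_apply, smul_eq_mul, Finset.mul_sum, mul_sub, mul_assoc]
  have pt : ∀ (p : Fin (d + 1) → F) (s : F) (n : Fin (d + 1) → F), B n n = 0 → n ≠ 0 → s ≠ 0 →
      Lightlike (p + s • n) p := fun p s n h1 h2 h3 =>
    ⟨by rw [mu_symm, mu_line _ _ _ _ h1, mu_self]; simp [B, S], by simp [h2, h3]⟩
  have pu := pt x t m hm m0 t0
  have pw := pt (x + (2 * t) • l) (-t) m hm m0 (neg_ne_zero.2 t0)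
  have fu : ∀ s : F, mu (x + t • m) (x + s • l) = -4 * s * t := fun s => by
    rw [mu_line _ _ _ _ hl, pu.1, add_sub_cancel_left, sm, hml]; ring
  have fw : ∀ s : F, mu (x + (2 * t) • l + (-t) • m) (x + (2 * t) • l + s • l) = 4 * s * t :=
    fun s => by rw [mu_line _ _ _ _ hl, pw.1, add_sub_cancel_left, sm, hml]; ring
  have pz := pt x t l hl l0 t0
  have yz : mu y (x + t • l) = 0 := by rw [mu_line _ _ _ _ hl]; linarith
  refine ⟨x + t • l, x + (2 * t) • l, x + t • m, x + (2 * t) • l + (-t) • m,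
    ⟨by rw [mu_symm, pz.1], pz.2.symm⟩, pt x _ l hl l0 (by positivity), ?_, ⟨yz, ?_⟩, pu, pw,
    ?_, ?_, ?_, ?_, ?_⟩
  · rw [show x + (2 * t) • l = x + t • l + t • l by module]
    exact pt _ t l hl l0 t0
  · intro k
    rw [k, pz.1] at h
    exact lt_irrefl _ h
  · rw [mu_line _ _ _ _ hl]; linarith
  · rw [fu]; linarith
  · rw [fu]; linarith
  · have := fw (-(2 * t))
    rw [show x + (2 * t) • l + (-(2 * t)) • l = x by module] at this
    rw [this]; linarith
  · have := fw (-t)
    rw [show x + (2 * t) • l + (-t) • l = x + t • l by module] at this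
    rw [this]; linarith

end

abbrev Var : Type := Fin 2 ⊕ Fin 9 ⊕ Fin 1

def sigF (p q a : Var) : QF Var :=
  let v : Var := .inr (.inr 0)
  .and (.rel p a) (.or (.not (.or (.eq v p) (.or (.eq v a) (.and (.rel v p) (.rel v a)))))
    (.not (.or (.rel v q) (.eq v q))))

def psi : QF Var :=
  let x : Var := .inl 0
  let y : Var := .inl 1
  let e : Fin 9 → Var := fun i => .inr (.inl i)
  .and (.rel x (e 0)) <| .and (.rel (e 1) x) <| .and (.rel (e 1) (e 0)) <| .and (.rel y (e 0)) <|
  .and (.rel (e 2) x) <| .and (.rel (e 3) (e 1)) <| .and (sigF y (e 1) (e 4)) <|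
  .and (sigF (e 2) (e 0) (e 5)) <| .and (sigF (e 2) (e 1) (e 6)) <|
  .and (sigF (e 3) x (e 7)) (sigF (e 3) (e 0) (e 8))

theorem result : ∃ (k m : ℕ) (ψ : QF (Fin 2 ⊕ Fin k ⊕ Fin m)), ∀ d : ℕ, 3 ≤ d + 1 →
    ∀ (F : Type) [Field F] [LinearOrder F] [IsStrictOrderedRing F], Euclidean F →
      ∀ x y : Fin (d + 1) → F,
        (∃ u : Fin k → Fin (d + 1) → F, ∀ v : Fin m → Fin (d + 1) → F,
          ψ.sat Lightlike (Sum.elim ![x, y] (Sum.elim u v))) ↔ Timelike x y := by
  refine ⟨9, 1, psi, fun d hd F _ _ _ hE x y => ⟨?_, fun h => ?_⟩⟩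
  · rintro ⟨u, h⟩
    have h' := fun v => h fun _ => v
    obtain ⟨h1, h2, h3, h4, h5, h6, _⟩ := h' x
    exact conf_time (z := u 0) (x' := u 1) (u := u 2) (w := u 3) ⟨h1, h2, h3, h4, h5, h6,
      sig_neg (a := u 4) fun v => (h' v).2.2.2.2.2.2.1,
      sig_neg (a := u 5) fun v => (h' v).2.2.2.2.2.2.2.1,
      sig_neg (a := u 6) fun v => (h' v).2.2.2.2.2.2.2.2.1,
      sig_neg (a := u 7) fun v => (h' v).2.2.2.2.2.2.2.2.2.1,
      sig_neg (a := u 8) fun v => (h' v).2.2.2.2.2.2.2.2.2.2⟩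
  · have hd' : 2 ≤ d := by omega
    obtain ⟨z, x', u, w, h1, h2, h3, h4, h5, h6, s1, s2, s3, s4, s5⟩ := time_conf hd' h
    obtain ⟨a1, t1⟩ := sig_of_neg hE hd' s1
    obtain ⟨a2, t2⟩ := sig_of_neg hE hd' s2
    obtain ⟨a3, t3⟩ := sig_of_neg hE hd' s3
    obtain ⟨a4, t4⟩ := sig_of_neg hE hd' s4
    obtain ⟨a5, t5⟩ := sig_of_neg hE hd' s5
    exact ⟨![z, x', u, w, a1, a2, a3, a4, a5], fun v =>
      ⟨h1, h2, h3, h4, h5, h6, t1 (v 0), t2 (v 0), t3 (v 0), t4 (v 0), t5 (v 0)⟩⟩

end Pool.Agent.Results.MP_446ff5_lc.Definable
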